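import Pool.Agent.TH214.Dom2
import Pool.Agent.W558.WT.LU

/-!
MP_3029eb_ag: local uniformization, at all valuations and in all dimensions, of the local rings of
the normalization of a smooth projective variety over a perfect field of characteristic `p` in an
elementary abelian extension of exponent `p` of its function field with clean (non-degenerate)
ramification, in the sense of Kato, along a divisor with simple normal crossings.

The proof: see MP_19ffc6_ag.CleanCovers.

helper214; built on the library of the starting files (helpers 558, 33, 369, 405, 368, 356, 29,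
230, 32, 906, 191, 410, 435, 376, 382, 348, 135, 991, 366, 74, 305, 417, 440, 409, 174, 290, 392,
352, 565, 335, 924, 337, 347, 479, 959, 727, 202, 22 and others).
-/

set_option autoImplicit false

open Pool.Agent.W558

namespace Pool.Agent.Results.MP_3029eb_ag.CleanCoversLU

/-- The coordinate ring `k[H 0 / H j, ..., H N / H j]` of the chart `H j ≠ 0` of the projective
variety over `k` with the homogeneous coordinates `H 0, ..., H N` in a field `K`. -/
def chart (k : Type) {K : Type} [Field k] [Field K] [Algebra k K] {N : ℕ}
    (H : Fin (N + 1) → K) (j : Fin (N + 1)) : Subalgebra k K :=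
  Algebra.adjoin k (Set.range fun l => H l / H j)

/-- A tangent vector at the point `P : A → κ` of `Spec A`. -/
structure TangentVector {k A κ : Type} [Field k] [CommRing A] [Algebra k A] [Field κ]
    [Algebra k κ] (P : A →ₐ[k] κ) where
  /-- the derivation -/
  D : A →ₗ[k] κ
  leibniz : ∀ a b, D (a * b) = P a * D b + P b * D a

/-- A logarithmic tangent vector at the point `P : A → κ` of `Spec A` with the divisor
`x 1 * ... * x d = 0`: a tangent vector together with the values `e i` of `dx i / x i`. -/
structure LogTangentVector {k A κ : Type} [Field k] [CommRing A] [Algebra k A] [Field κ]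
    [Algebra k κ] (P : A →ₐ[k] κ) {d : ℕ} (x : Fin d → A) extends TangentVector P where
  /-- the values of `dx i / x i` -/
  e : Fin d → κ
  D_x : ∀ i, D (x i) = P (x i) * e i

/-- The value of the logarithmic differential form
`d (x ^ n * h) / x ^ n = dh + h * ∑ i, n i * dx i / x i` on the logarithmic tangent vector `v`. -/
def LogTangentVector.form {k A κ : Type} [Field k] [CommRing A] [Algebra k A] [Field κ]
    [Algebra k κ] {P : A →ₐ[k] κ} {d : ℕ} {x : Fin d → A} (v : LogTangentVector P x)
    (n : Fin d → ℤ) (h : A) : κ :=
  v.D h + P h * ∑ i, (n i : κ) * v.e i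

/-- A smooth projective variety over `k` with the function field `K` and a divisor with simple
normal crossings on it, with the components `1, ..., d`. -/
structure SmoothPair (k K : Type) [Field k] [Field K] [Algebra k K] (N d : ℕ) where
  /-- the homogeneous coordinates -/
  H : Fin (N + 1) → K
  H_ne : ∀ j, H j ≠ 0
  smooth : ∀ j, Algebra.Smooth k (chart k H j)
  isFractionRing : ∀ j, IsFractionRing (chart k H j) K
  /-- the local equations of the components of the divisor on the charts -/
  x : ∀ j, Fin d → chart k H j
  x_ne : ∀ j i, x j i ≠ 0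
  glue : ∀ j j' i, ∃ m : ℕ, (H j' / H j) ^ m * ((x j' i : K) / x j i) ∈ chart k H j
  snc : ∀ j (κ : Type) [Field κ] [Algebra k κ] (P : chart k H j →ₐ[k] κ) (i : Fin d),
    P (x j i) = 0 → ∃ D : TangentVector P, D.D (x j i) = 1 ∧
      ∀ l, l ≠ i → P (x j l) = 0 → D.D (x j l) = 0

/-- The Artin-Schreier covers of `X` given by the functions `f t` are jointly clean: on the chart
`j` we have `f t = a ^ p - a + x ^ (n t) * h`, for some exponents `n t i ≤ 0` which do not depend on
the chart, some `a ∈ K` and some regular function `h`, such that, at every point, for every `t` such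
that the point lies on a component `i` with `n t i < 0`, the value at the point of the
logarithmic differential form `ω t = d (x ^ (n t) * h) / x ^ (n t)` is not a linear combination of
the values of the other forms `ω t'`. For a single function `f` this says that `ω` has no zeros
on the components `i` with `n i < 0`, which is the cleanness of Kato. -/
def JointlyClean (p : ℕ) {k K : Type} [Field k] [Field K] [Algebra k K] {N d s : ℕ}
    (X : SmoothPair k K N d) (f : Fin s → K) : Prop :=
  ∃ (n : Fin s → Fin d → ℤ) (a : Fin (N + 1) → Fin s → K)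
    (h : ∀ j, Fin s → chart k X.H j),
    (∀ t i, n t i ≤ 0) ∧
    (∀ j t, f t = a j t ^ p - a j t + (∏ i, (X.x j i : K) ^ n t i) * h j t) ∧
    ∀ j (κ : Type) [Field κ] [Algebra k κ] (P : chart k X.H j →ₐ[k] κ) (t : Fin s),
      (∃ i, n t i < 0 ∧ P (X.x j i) = 0) →
      ∃ v : LogTangentVector P (X.x j), v.form (n t) (h j t) ≠ 0 ∧
        ∀ t', t' ≠ t → v.form (n t') (h j t') = 0

/-- The zeros and poles of the function `g` are contained in the divisor: on the charts it is the
product of a unit and of powers of the local equations. -/
def IsBoundaryFunction {k K : Type} [Field k] [Field K] [Algebra k K] {N d : ℕ}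
    (X : SmoothPair k K N d) (g : K) : Prop :=
  ∃ γ : Fin d → ℤ, ∀ j, ∃ u : (chart k X.H j)ˣ,
    g = ((u : chart k X.H j) : K) * ∏ i, (X.x j i : K) ^ γ i

/-- The local domain `R` admits local uniformization: for every valuation ring `V` of the fraction
field `K` of `R` centred on `R` there is a finitely generated `R`-algebra `B` in `V` whose
localization at the centre `P` of `V` is regular. -/
def AdmitsLocalUniformization (R : Type) [CommRing R] : Prop :=
  ∀ (K : Type) [Field K] [Algebra R K] [IsFractionRing R K] (V : ValuationSubring K),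
    (∀ r : R, algebraMap R K r ∈ V) →
    (∀ r : R, r ∈ nonunits R ↔ V.valuation (algebraMap R K r) < 1) →
    ∃ B : Subalgebra R K, B.FG ∧ (∀ b : B, (b : K) ∈ V) ∧
      ∃ P : Ideal B, ∃ (_ : P.IsPrime),
        (∀ b : B, b ∈ P ↔ V.valuation (b : K) < 1) ∧
        IsRegularLocalRing (Localization.AtPrime P)

/-- Let `k` be a perfect field of characteristic `p`, `X` a smooth projective variety over `k` with
the function field `K` and a divisor with simple normal crossings, and let `f 1, ..., f s` be
elements of `K` such that the Artin-Schreier covers of `X` given by them are jointly clean. Let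
`K'` be an elementary abelian extension of `K` of exponent `p` generated by elements
`w 1, ..., w r` such that every `w j ^ p - w j` is a linear combination of the `f t` with integral
coefficients, up to elements `b ^ p - b`, `b ∈ K`. Let `A` be a `k`-algebra with fraction field
`K'`, `J` a set of charts and `S` a finite subset of `A`, such that `A` contains the coordinate
rings of the charts `j ∈ J`, the elements of `S` are elements of `K` whose zeros and poles are
contained in the divisor, and `A` is integral over the subalgebra generated by the coordinate rings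
of the charts `j ∈ J` and `S`. Then the localization `R` of `A` at any prime ideal `q` admits
local uniformization.

For `J = {j}` and empty `S`, `Spec A` can be the preimage of the affine chart `H j ≠ 0` in
the normalization of `X` in `K'`, so the local rings of this normalization admit local
uniformization. -/
theorem result (p : ℕ) [Fact p.Prime] (k K K' : Type) [Field k] [PerfectField k] [CharP k p]
    [Field K] [Algebra k K] [Field K'] [Algebra k K'] [Algebra K K'] [IsScalarTower k K K']
    (N d s r : ℕ) (X : SmoothPair k K N d) (f : Fin s → K) (hf : JointlyClean p X f)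
    (w : Fin r → K')
    (hw : ∀ j, w j ^ p - w j ∈ AddSubgroup.closure
      ((Set.range fun t => algebraMap K K' (f t)) ∪
        Set.range fun b : K => algebraMap K K' (b ^ p - b)))
    (hgen : IntermediateField.adjoin K (Set.range w) = ⊤)
    (A : Type) [CommRing A] [IsDomain A] [Algebra k A] [Algebra A K']
    [IsScalarTower k A K'] [IsFractionRing A K'] (J : Finset (Fin (N + 1)))
    (hJ : ∀ j ∈ J, ∀ g ∈ chart k X.H j, ∃ a : A, algebraMap A K' a = algebraMap K K' g)
    (S : Finset A)
    (hS : ∀ a ∈ S, ∃ g : K, IsBoundaryFunction X g ∧ algebraMap A K' a = algebraMap K K' g)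
    (hA : ∀ a : A, IsIntegral (Algebra.adjoin k ((S : Set A) ∪
      {b : A | ∃ j ∈ J, ∃ g ∈ chart k X.H j, algebraMap A K' b = algebraMap K K' g})) a)
    (q : Ideal A) [q.IsPrime] (R : Type) [CommRing R] [Algebra A R]
    [IsLocalization.AtPrime R q] : AdmitsLocalUniformization R := by
  classical
  obtain ⟨n, a, h, hn, hfe, hcl⟩ := hf
  let M : LM (⊥ : Subalgebra k K) ⊤ (Fin (N + 1)) (Fin d) :=
    Pool.Agent.TH214.pairLM X.H (fun j i => (X.x j i : K)) X.H_ne X.smooth
      (fun j i => (X.x j i).2) (fun j i h0 => X.x_ne j i (Subtype.ext h0)) X.glue (by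
        intro j κ _ _ P i hi h0
        obtain ⟨D, h1, h2⟩ := X.snc j κ P i h0
        exact ⟨⟨D.D, D.leibniz⟩, h1, fun l hl hne hl0 => h2 l hne hl0⟩)
  obtain ⟨e⟩ : Nonempty ({a // a ∈ S} ≃ Fin S.card) := ⟨S.equivFin⟩
  choose g hgb hga using fun b : Fin S.card => hS (e.symm b).1 (e.symm b).2
  choose γ u hgu using hgb
  have hN : NBS p M f n a (fun j t => (h j t : K)) := by
    refine ⟨hn, fun j t => (h j t).2, hfe, ?_⟩
    intro j κ _ _ P t ht
    obtain ⟨v, hv1, hv2⟩ := hcl j κ P t ht
    exact ⟨⟨⟨v.D, v.leibniz⟩, v.e, fun i hi => v.D_x i⟩, hv1, hv2⟩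
  have hG : Fn M g γ := by
    intro b j
    refine ⟨((u b j : chart k X.H j) : K), ?_, ((u b j : chart k X.H j)).2, ?_, hgu b j⟩
    · intro h0
      exact (u b j).ne_zero (Subtype.ext h0)
    · have h1 : ((u b j : chart k X.H j) : K)⁻¹ = (((u b j)⁻¹ : (chart k X.H j)ˣ) : K) := by
        refine inv_eq_of_mul_eq_one_right ?_
        have h2 := congrArg (fun z : chart k X.H j => (z : K)) (u b j).mul_inv
        exact h2
      rw [h1]
      exact (((u b j)⁻¹ : (chart k X.H j)ˣ) : chart k X.H j).2
  have hR : Frc M := by
    intro j z
    have := X.isFractionRing j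
    obtain ⟨a', b', hb', rfl⟩ := IsFractionRing.div_surjective (A := chart k X.H j) z
    exact ⟨a', a'.2, b', b'.2, fun h0 => nonZeroDivisors.ne_zero hb' (Subtype.ext h0),
      div_eq_mul_inv _ _⟩
  obtain ⟨T, I, hT, hI, ⟨M'⟩⟩ := Pool.Agent.TH214.LM_of_NBSd p k K K' M hN hG hR w hw hgen A J hJ
    (fun b => (e.symm b).1) hga (by
      have h1 : Set.range (fun b : Fin S.card => ((e.symm b).1 : A)) = (S : Set A) := by
        ext y
        constructor
        · rintro ⟨b, rfl⟩
          exact (e.symm b).2
        · intro hy
          exact ⟨e ⟨y, hy⟩, by simp⟩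
      rw [h1]
      exact hA)
  intro K2 _ _ _ W hV1 hV2
  have hR' : IsLocalRing R := IsLocalization.AtPrime.isLocalRing R q
  obtain ⟨B', h1, h2, P', hP, h3, h4, h5⟩ := Pool.Agent.W558.WT.uniformized_of_LM2 M' q (R := R)
    (K := K2) W hV1 (fun r => (IsLocalRing.mem_maximalIdeal r).trans (hV2 r))
  exact ⟨B', h1, h2, P', hP, h3, (IsRegularLocalRing.iff_finrank_cotangentSpace _).2 h5.symm⟩

end Pool.Agent.Results.MP_3029eb_ag.CleanCoversLU
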