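import Pool.Agent.TH188.QS.LU2

/-!
MP_3029eb_ag: local uniformization, in arbitrary dimension and characteristic, of local domains
along the discrete valuations of arbitrary finite rank, and along valuations with divergent
sequences of quadratic transforms.

The local domain `R` is essentially of finite type over a ring `R₀` each of whose quotient domains
is a field, or is of finite type over a regular domain `R₁` such that `R₁` is `F`-finite, or `R₁` is
formally smooth over a perfect field, or `R₁` is contained in the quotient and the quotient has
characteristic zero. (Examples of such rings `R₀`: fields, `F`-finite rings, Dedekind domains of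
characteristic zero, complete local rings with an `F`-finite residue field, in equal or mixed
characteristic.) If the rank is one, it is enough that `R` is essentially of finite type over a
regular domain over which its fraction field is separable (for example, `R` is any complete local
domain).
-/

set_option autoImplicit false

universe u

namespace Pool.Agent.Results.MP_3029eb_ag.DiscreteValuationsLU

open IsLocalRing Pool.Agent.W418.LU2 Pool.Agent.TH188.QS

/-- The local ring of `Spec B` at the centre of the valuation ring `V`: the fractions of elements
of `B` whose denominators are units of `V`. -/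
def centreRing {F : Type u} [Field F] (V : ValuationSubring F) (B : Subring F) : Subring F where
  carrier := {x | ∃ a ∈ B, ∃ b ∈ B, b ≠ 0 ∧ b⁻¹ ∈ V ∧ x = a * b⁻¹}
  mul_mem' := (lo V.toSubring B).mul_mem'
  one_mem' := (lo V.toSubring B).one_mem'
  add_mem' := (lo V.toSubring B).add_mem'
  zero_mem' := (lo V.toSubring B).zero_mem'
  neg_mem' := (lo V.toSubring B).neg_mem'

/-- A ring of prime characteristic `p` which is a finite module over its ring of `p`-th powers. -/
def IsFFinite (R : Type u) [CommRing R] : Prop :=
  ∃ (p : ℕ) (_ : Fact p.Prime) (_ : CharP R p), (frobenius R p).Finite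

/-- A ring which is formally smooth over a perfect field. -/
def IsFormallySmoothOverPerfectField (R : Type u) [CommRing R] : Prop :=
  ∃ (k : Type u) (_ : Field k) (_ : PerfectField k) (_ : Algebra k R), Algebra.FormallySmooth k R

/-- The rings `R` over which the domains of finite type are considered: each quotient domain
`R / 𝔭` is a field, or it is of finite type over a regular domain `R₁` such that `R₁` is `F`-finite,
or `R₁` is formally smooth over a perfect field, or `R₁` is a subring of `R / 𝔭` and `R / 𝔭` has
characteristic zero. -/
def IsBaseRing (R : Type u) [CommRing R] : Prop :=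
  ∀ 𝔭 : Ideal R, 𝔭.IsPrime → IsField (R ⧸ 𝔭) ∨
    ∃ (R₁ : Type u) (_ : CommRing R₁) (_ : IsDomain R₁) (_ : IsRegularRing R₁)
      (σ : R₁ →+* R ⧸ 𝔭), σ.FiniteType ∧
        (IsFFinite R₁ ∨ IsFormallySmoothOverPerfectField R₁ ∨
          (Function.Injective σ ∧ CharZero (R ⧸ 𝔭)))

/-- The image of the `R`-algebra generated by `T`. -/
def adjoined {R K : Type u} [CommRing R] [Field K] (ρ : R →+* K) (T : Set K) : Subring K :=
  Subring.closure ((ρ.range : Set K) ∪ T)

/-- The quadratic transform of `Q` along `V`: the local ring, at the centre of `V`, of the
blowing-up of `Spec Q` in the centre of `V`. -/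
def quadraticTransform {K : Type u} [Field K] (V : ValuationSubring K) (Q : Subring K) :
    Subring K :=
  centreRing V (Subring.closure ((Q : Set K) ∪ {t | ∃ y ∈ Q, ∃ z ∈ Q,
    V.valuation y < 1 ∧ z ≠ 0 ∧ V.valuation z < 1 ∧
      (∀ w ∈ Q, V.valuation w < 1 → V.valuation w ≤ V.valuation z) ∧ t = y / z}))

/-- The sequence of quadratic transforms of the local ring of `Spec A` at the centre of `V`. -/
def quadraticSequence {K : Type u} [Field K] (V : ValuationSubring K) (A : Subring K) :
    ℕ → Subring K
  | 0 => centreRing V A
  | n + 1 => quadraticTransform V (quadraticSequence V A n)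

/-- The values of the maximal ideals in the sequence of quadratic transforms have an infinite sum:
every value of `V` is exceeded by the value of all products `z 0 * ... * z (n - 1)` of elements
`z i` of the maximal ideals of the rings of the sequence, for some `n`. -/
def IsDivergent {K : Type u} [Field K] (V : ValuationSubring K) (A : Subring K) : Prop :=
  ∀ x : K, x ≠ 0 → ∃ n : ℕ, ∀ z : ℕ → K,
    (∀ i < n, z i ∈ quadraticSequence V A i ∧ z i ≠ 0 ∧ V.valuation (z i) < 1) →
      V.valuation (∏ i ∈ Finset.range n, z i) < V.valuation x

/-- `V` is the composite of the valuation ring `V₁` and the valuation ring `W` of its residue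
field. -/
def IsComposite {K : Type u} [Field K] (V V₁ : ValuationSubring K)
    (W : ValuationSubring (ResidueField V₁)) : Prop :=
  ∀ z : K, z ∈ V ↔ ∃ hz : z ∈ V₁, residue V₁ ⟨z, hz⟩ ∈ W

/-- `V` is the composite of `n` valuations each of which is discrete of rank one, or is divergent
on all `R`-algebras of finite type. -/
def IsStepwiseDivergent (R : Type u) [CommRing R] : ℕ → ∀ {K : Type u} [Field K], (R →+* K) →
    ValuationSubring K → Prop
  | 0, _, _, _, V => V = ⊤
  | n + 1, K, _, ρ, V => ∃ (V₁ : ValuationSubring K) (W : ValuationSubring (ResidueField V₁))
      (hρ : ∀ a, ρ a ∈ V₁.toSubring), IsComposite V V₁ W ∧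
      (IsDiscreteValuationRing V₁ ∨
        ∀ T : Set K, T.Finite → adjoined ρ T ≤ V₁.toSubring → IsDivergent V₁ (adjoined ρ T)) ∧
      IsStepwiseDivergent R n ((residue V₁).comp (ρ.codRestrict V₁.toSubring hρ)) W

/-- `R` is essentially of finite type over a base ring `R₀`, and `V` is a composite of finitely many
discrete or divergent valuations, or divergent on `R`. -/
def IsOfFirstKind (R : Type u) {K : Type u} [CommRing R] [Field K] [Algebra R K]
    (V : ValuationSubring K) : Prop :=
  ∃ (R₀ : Type u) (_ : CommRing R₀) (_ : Algebra R₀ R), IsBaseRing R₀ ∧
    Algebra.EssFiniteType R₀ R ∧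
      ((∃ n, IsStepwiseDivergent R₀ n ((algebraMap R K).comp (algebraMap R₀ R)) V) ∨
        IsDivergent V (algebraMap R K).range)

/-- `R` is essentially of finite type over a regular subring `R₁`, the fraction field `K` has
characteristic zero or is formally smooth over `R₁`, and `V` is discrete of rank one or divergent
on `R`. -/
def IsOfSecondKind (R : Type u) {K : Type u} [CommRing R] [Field K] [Algebra R K]
    (V : ValuationSubring K) : Prop :=
  ∃ (R₁ : Type u) (_ : CommRing R₁) (_ : IsDomain R₁) (_ : IsRegularRing R₁) (_ : Algebra R₁ R)
    (_ : Algebra R₁ K) (_ : IsScalarTower R₁ R K), Algebra.EssFiniteType R₁ R ∧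
      Function.Injective (algebraMap R₁ R) ∧ (CharZero K ∨ Algebra.FormallySmooth R₁ K) ∧
      (IsDiscreteValuationRing V ∨ IsDivergent V (algebraMap R K).range)

/-- The valuation ring `V` of the fraction field `K` of `R` is uniformizable on `R`: there is a
finitely generated `R`-algebra `A` in `V` whose localization at the centre `P` of `V` is regular. -/
def IsUniformizable (R : Type u) {K : Type u} [CommRing R] [Field K] [Algebra R K]
    (V : ValuationSubring K) : Prop :=
  ∃ A : Subalgebra R K, A.FG ∧ (∀ a : A, (a : K) ∈ V) ∧
    ∃ P : Ideal A, ∃ (_ : P.IsPrime), (∀ a : A, a ∈ P ↔ V.valuation (a : K) < 1) ∧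
      IsRegularLocalRing (Localization.AtPrime P)

lemma quadraticSequence_eq {K : Type u} [Field K] (V : ValuationSubring K) (A : Subring K) :
    quadraticSequence V A = qseq V A := by
  funext n
  induction n with
  | zero => rfl
  | succ n ih =>
    change quadraticTransform V (quadraticSequence V A n) = qt V.toSubring (qseq V A n)
    rw [ih, qt_val]
    rfl

lemma IsDivergent.dv {K : Type u} [Field K] {V : ValuationSubring K} {A : Subring K}
    (h : IsDivergent V A) : Dv V (qseq V A) := by
  rw [← quadraticSequence_eq]
  exact dv_of_lt h

lemma IsStepwiseDivergent.sd {R : Type u} [CommRing R] (n : ℕ) : ∀ {K : Type u} [Field K]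
    (ρ : R →+* K) (V : ValuationSubring K), IsStepwiseDivergent R n ρ V → SD R n ρ V := by
  induction n with
  | zero => exact fun ρ V h => h
  | succ n ih =>
    intro K _ ρ V h
    obtain ⟨V₁, W, hρ, hc, hd, hW⟩ := h
    exact ⟨V₁, W, hρ, hc, hd.imp_right fun h T hT hTV => (h T hT hTV).dv, ih _ _ hW⟩

lemma IsBaseRing.hj {R : Type u} [CommRing R] (h : IsBaseRing R) : HJ R :=
  BR.hj h

/-- Let `R` be a local domain with the fraction field `K`, and `V` a valuation ring of `K` which is
centred on `R`. Suppose that
(1) `R` is essentially of finite type over a ring `R₀` each of whose quotient domains is a field or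
of finite type over a regular domain `R₁` which is `F`-finite, or formally smooth over a perfect
field, or a subring of the quotient which has characteristic zero, and `V` is the composite of `n`
valuations each of which is discrete of rank one or divergent (for example, `V` is discrete of rank
`n`), or the sequence of quadratic transforms of `R` along `V` is divergent; or
(2) `R` is essentially of finite type over a regular subring `R₁` such that `K` has characteristic
zero or is formally smooth over `R₁`, and `V` is discrete of rank one, or the sequence of quadratic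
transforms of `R` along `V` is divergent.
Then there is a finitely generated `R`-algebra `A` in `V` whose localization at the centre of `V`
is regular. -/
theorem result (R : Type u) [CommRing R] [IsDomain R] [IsLocalRing R] (K : Type u) [Field K]
    [Algebra R K] [IsFractionRing R K] (V : ValuationSubring K)
    (hRV : ∀ r : R, algebraMap R K r ∈ V)
    (hcentre : ∀ r : R, r ∈ maximalIdeal R ↔ V.valuation (algebraMap R K r) < 1)
    (hV : IsOfFirstKind R V ∨ IsOfSecondKind R V) :
    IsUniformizable R V := by
  rcases hV with ⟨R₀, _, _, h₀, hess, hV⟩ | ⟨R₁, _, _, _, _, _, _, hess, hinj, hK, hV⟩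
  · exact lu_ess h₀.hj (IsFractionRing.injective R K) V hRV
      (hV.imp (fun ⟨n, hn⟩ => ⟨n, hn.sd⟩) fun h => h.dv)
  · have hH : Subsingleton (Algebra.H1Cotangent R₁ K) := by
      rcases hK with hK | hK
      · refine h1_charZero ?_
        rw [IsScalarTower.algebraMap_eq R₁ R K]
        exact (IsFractionRing.injective R K).comp hinj
      · exact hK.subsingleton_h1Cotangent
    exact lu_reg hH V hRV (hV.imp_right fun h => h.dv)

end Pool.Agent.Results.MP_3029eb_ag.DiscreteValuationsLU
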